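import Pool.Agent.H46.CH.AS
import Pool.Agent.H23.CH.SH

/-!
# Few changes of colours, row SHn: extra elements are carried from a subtree to the root
-/

set_option autoImplicit false

namespace Pool.Agent.H23.CHE

open Classical Pool.Agent.H8.VR Pool.Agent.H69.VR Pool.Agent.H46.CH
open Pool.Agent.H23.CH (ofs_zero ofs_add kc_pos)

theorem pf_SHn (hXL : T_XLn) (hXR : T_XRn) (hRO : T_ROn) (hJW : T_JW) :
    Pool.Agent.H46.CH.T_SHn := by
  intro N Q L T O C _ _ _ _ _ _ V t R hsub
  induction hsub with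
  | refl t =>
    intro _
    refine ⟨fun _ => le_rfl, fun U off _ _ _ h => ?_⟩
    rw [ofs_zero V.W _ (fun φ => Nat.sub_self _), add_zero]
    exact h
  | left D o w t t₁ t₂ hsub ih =>
    intro hok
    cases hok with
    | join _ _ _ _ _ h₁ h₂ hs ht hu hF₁ hF₂ a' e hw hc hg =>
      obtain ⟨i1, i2⟩ := ih h₁
      have hle : ∀ φ, D.F φ ≤ t₁.dt.F φ := fun φ => by
        rw [hF₁ φ]
        exact Nat.le_add_right _ _
      refine ⟨fun φ => (hle φ).trans (i1 φ), fun U off hU hrg hcond hR => ?_⟩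
      have h5 := i2 U off hU hrg
        (fun σ φ hσ hφ => hcond σ φ hσ (lt_of_le_of_lt (hle φ) hφ)) hR
      have h6 := hXL N Q L T O C V o t₁.dt.c U t₂.dt.c a' e _ (hs ▸ h5)
        (ht ▸ hRO N Q L T O C V t₂ h₂) (hJW N Q L T O C V.W o _ _ _ _ _ w hw) hU hrg ?_
      · have h7 : D.c = V.rc o a' e := funext hc
        change V.RX D.s D.c U _
        rw [h7, ← hu]
        rw [add_assoc, ← ofs_add V.W _ _ (fun φ => t.dt.F φ - D.F φ) ?_] at h6
        · exact h6
        · intro φ
          have h8 := hF₁ φ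
          have h9 := i1 φ
          omega
      · intro σ τ hσ hτ
        refine hcond σ (o, true, τ.1, τ.2.1) hσ ?_
        change D.F (o, true, τ.1, τ.2.1) < t.dt.F (o, true, τ.1, τ.2.1)
        refine lt_of_lt_of_le ?_ (i1 _)
        rw [hF₁, if_pos ⟨rfl, rfl⟩]
        exact Nat.lt_add_of_pos_right (kc_pos _ τ hτ)
  | right D o w t t₁ t₂ hsub ih =>
    intro hok
    cases hok with
    | join _ _ _ _ _ h₁ h₂ hs ht hu hF₁ hF₂ a' e hw hc hg =>
      obtain ⟨i1, i2⟩ := ih h₂
      have hle : ∀ φ, D.F φ ≤ t₂.dt.F φ := fun φ => by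
        rw [hF₂ φ]
        exact Nat.le_add_right _ _
      refine ⟨fun φ => (hle φ).trans (i1 φ), fun U off hU hrg hcond hR => ?_⟩
      have h5 := i2 U off hU hrg
        (fun σ φ hσ hφ => hcond σ φ hσ (lt_of_le_of_lt (hle φ) hφ)) hR
      have h6 := hXR N Q L T O C V o t₁.dt.c t₂.dt.c U a' e _
        (hs ▸ hRO N Q L T O C V t₁ h₁) (ht ▸ h5) (hJW N Q L T O C V.W o _ _ _ _ _ w hw) hU hrg ?_
      · have h7 : D.c = V.rc o a' e := funext hc
        change V.RX D.s D.c U _
        rw [h7, ← hu]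
        rw [add_assoc, ← ofs_add V.W _ _ (fun φ => t.dt.F φ - D.F φ) ?_] at h6
        · exact h6
        · intro φ
          have h8 := hF₂ φ
          have h9 := i1 φ
          omega
      · intro σ τ hσ hτ
        refine hcond σ (o, false, τ.1, τ.2.1) hσ ?_
        change D.F (o, false, τ.1, τ.2.1) < t.dt.F (o, false, τ.1, τ.2.1)
        refine lt_of_lt_of_le ?_ (i1 _)
        rw [hF₂, if_pos ⟨rfl, rfl⟩]
        exact Nat.lt_add_of_pos_right (kc_pos _ τ hτ)

end Pool.Agent.H23.CHE
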